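import Pool.Agent.Helper10.RC.Basic

/-!
# MP_b55b7c_an: packet Exh
-/

open scoped ENNReal NNReal InnerProductSpace ComplexOrder
open Filter Topology

attribute [-instance] CStarMatrix.instAlgebra CStarMatrix.instModule CStarMatrix.instSMul
  CStarMatrix.instMulAction CStarMatrix.instDistribMulAction

noncomputable section
namespace RC
universe u

section
variable {H : Type u} [NormedAddCommGroup H] [InnerProductSpace ℂ H] [CompleteSpace H]

theorem star_mul_self_zero {x : H →L[ℂ] H} (h : star x * x = 0) : x = 0 := by
  have h1 : ‖star x * x‖ = ‖x‖ * ‖x‖ := CStarRing.norm_star_mul_self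
  rw [h, norm_zero] at h1
  exact norm_eq_zero.1 (mul_self_eq_zero.1 h1.symm)

/-- a partial isometry `v` satisfies `v v* v = v` -/
theorem pi_mul {v : H →L[ℂ] H} (h : IsStarProjection (star v * v)) :
    v * (star v * v) = v := by
  have h1 := h.isIdempotentElem.eq
  have h2 : star (v * (star v * v) - v) * (v * (star v * v) - v) = 0 := by
    have h3 : star v * v * (star v * v) = star v * v := h1
    have e : star (v * (star v * v) - v) = (star v * v) * star v - star v := by
      simp [mul_assoc]
    rw [e]
    have e2 : (star v * v * star v - star v) * (v * (star v * v) - v) =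
        (star v * v * (star v * v)) * (star v * v) - star v * v * (star v * v)
          - (star v * v * (star v * v) - star v * v) := by
      simp only [sub_mul, mul_sub, mul_assoc]
    rw [e2, h3, h3]
    abel
  exact sub_eq_zero.1 (star_mul_self_zero h2)

theorem pi_star {v : H →L[ℂ] H} (h : IsStarProjection (star v * v)) :
    IsStarProjection (v * star v) := by
  constructor
  · change v * star v * (v * star v) = v * star v
    calc v * star v * (v * star v) = (v * (star v * v)) * star v := by simp only [mul_assoc]
      _ = v * star v := by rw [pi_mul h]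
  · change star (v * star v) = v * star v
    simp

end

theorem exhP (h1 : MaxP.{u}) (h2 : PolarP.{u}) : ExhP.{u} := by
  intro H _ _ _ S ξ hFV p hp q hq hpp hqp
  have hsub : ∀ x ∈ S.centralizer, ∀ y ∈ S.centralizer, x - y ∈ S.centralizer := by
    intro x hx y hy
    rw [Set.mem_centralizer_iff] at *
    intro m hm
    rw [mul_sub, sub_mul, hx m hm, hy m hm]
  have hadd : ∀ x ∈ S.centralizer, ∀ y ∈ S.centralizer, x + y ∈ S.centralizer := by
    intro x hx y hy
    rw [Set.mem_centralizer_iff] at *
    intro m hm
    rw [mul_add, add_mul, hx m hm, hy m hm]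
  have hmul : ∀ x ∈ S.centralizer, ∀ y ∈ S.centralizer, x * y ∈ S.centralizer :=
    fun x hx y hy => Set.mul_mem_centralizer hx hy
  have hst : ∀ x ∈ S.centralizer, star x ∈ S.centralizer := by
    intro x hx
    rw [Set.mem_centralizer_iff] at *
    intro m hm
    have := congrArg star (hx (star m) (hFV.star m hm))
    rw [star_mul, star_mul, star_star] at this
    exact this.symm
  have h0 : (0 : H →L[ℂ] H) ∈ S.centralizer := by
    rw [Set.mem_centralizer_iff]
    intro m _
    simp
  set V : Set (H →L[ℂ] H) := {v | v ∈ S.centralizer ∧ IsStarProjection (star v * v) ∧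
    q * v = v ∧ v * p = v} with hV
  obtain ⟨v, hvV, hmax⟩ := h1 H S ξ hFV V
    (by
      refine ⟨h0, ?_, mul_zero _, zero_mul _⟩
      rw [mul_zero]
      exact IsStarProjection.zero _)
    (fun v hv => ⟨hv.1, hv.2.1⟩)
    (by
      intro v w hv hext hw hwp hw2 hlim hlim2
      refine ⟨hw, hwp, ?_, ?_⟩
      · ext ζ
        have ha : Tendsto (fun n => q (v n ζ)) atTop (𝓝 (q (w ζ))) :=
          (q.continuous.tendsto _).comp (hlim ζ)
        have hb : (fun n => q (v n ζ)) = fun n => v n ζ := by
          funext n
          have := (hv n).2.2.1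
          conv_rhs => rw [← this]
          rfl
        rw [hb] at ha
        exact tendsto_nhds_unique ha (hlim ζ)
      · ext ζ
        have ha := hlim (p ζ)
        have hb : (fun n => v n (p ζ)) = fun n => v n ζ := by
          funext n
          have := (hv n).2.2.2
          conv_rhs => rw [← this]
          rfl
        rw [hb] at ha
        exact tendsto_nhds_unique ha (hlim ζ))
  obtain ⟨hvN, hvp, hqv, hvp'⟩ := hvV
  refine ⟨v, hvN, hvp, hqv, hvp', ?_⟩
  intro x hx
  by_contra hT
  set a := v * star v with ha
  set b := star v * v with hb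
  have hap : IsStarProjection a := pi_star hvp
  have hvb : v * b = v := pi_mul hvp
  have hav : a * v = v := by
    rw [ha, mul_assoc]; exact hvb
  have haN : a ∈ S.centralizer := hmul _ hvN _ (hst _ hvN)
  have hbN : b ∈ S.centralizer := hmul _ (hst _ hvN) _ hvN
  have hqs : star q = q := hqp.isSelfAdjoint.star_eq
  have hps : star p = p := hpp.isSelfAdjoint.star_eq
  have has : star a = a := hap.isSelfAdjoint.star_eq
  have hbs : star b = b := hvp.isSelfAdjoint.star_eq
  have haa : a * a = a := hap.isIdempotentElem.eq
  have hbb : b * b = b := hvp.isIdempotentElem.eq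
  have hqq : q * q = q := hqp.isIdempotentElem.eq
  have hpp2 : p * p = p := hpp.isIdempotentElem.eq
  have hqa : q * a = a := by rw [ha, ← mul_assoc, hqv]
  have haq : a * q = a := by
    have := congrArg star hqa
    rwa [star_mul, has, hqs] at this
  have hbp : b * p = b := by rw [hb, mul_assoc, hvp']
  have hpb : p * b = b := by
    have := congrArg star hbp
    rwa [star_mul, hbs, hps] at this
  have hsv : star v * a = star v := by
    have := congrArg star hav
    rwa [star_mul, has] at this
  have hbsv : b * star v = star v := by
    have := congrArg star hvb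
    rwa [star_mul, hbs] at this
  set T := (q - a) * x * (p - b) with hTdef
  have hTN : T ∈ S.centralizer := hmul _ (hmul _ (hsub _ hq _ haN) _ hx) _ (hsub _ hp _ hbN)
  obtain ⟨w, hwN, hw1, hw2, hw3, hw4, hw5, hw6⟩ := h2 H S hFV.star T hTN
  set c := w * star w with hc
  set e := star w * w with he
  have hwe : w * e = w := pi_mul hw2
  have hcw : c * w = w := by rw [hc, mul_assoc]; exact hwe
  have hcs : star c = c := hw1.isSelfAdjoint.star_eq
  have hes : star e = e := hw2.isSelfAdjoint.star_eq
  have hee : e * e = e := hw2.isIdempotentElem.eq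
  have hpb2 : (p - b) * (p - b) = p - b := by
    rw [sub_mul, mul_sub, mul_sub, hpp2, hpb, hbp, hbb]; abel
  have hqa2 : (q - a) * (q - a) = q - a := by
    rw [sub_mul, mul_sub, mul_sub, hqq, hqa, haq, haa]; abel
  -- e ≤ p - b
  have he1 : e * (p - b) = e := by
    have := hw6 (1 - (p - b)) (by
      rw [hTdef, mul_sub, mul_one, mul_assoc _ (p - b) (p - b), hpb2, sub_self])
    rw [mul_sub, mul_one] at this
    exact (sub_eq_zero.1 this).symm
  have hc1 : (q - a) * c = c := by
    have := hw5 (1 - (q - a)) (by
      rw [hTdef, sub_mul, one_mul, ← mul_assoc, ← mul_assoc, hqa2, sub_self])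
    rw [sub_mul, one_mul] at this
    exact (sub_eq_zero.1 this).symm
  have hep : e * p = e := by
    rw [← he1, mul_assoc, sub_mul, hpp2, hbp]
  have heb : e * b = 0 := by
    rw [← he1, mul_assoc, sub_mul, hpb, hbb, sub_self, mul_zero]
  have hqc : q * c = c := by
    rw [← hc1, ← mul_assoc, mul_sub, hqq, hqa]
  have hac : a * c = 0 := by
    rw [← hc1, ← mul_assoc, mul_sub, haq, haa, sub_self, zero_mul]
  have hqw : q * w = w := by
    rw [← hcw, ← mul_assoc, hqc]
  have hwp2 : w * p = w := by
    rw [← hwe, mul_assoc, hep]
  have hwb : w * b = 0 := by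
    rw [← hwe, mul_assoc, heb, mul_zero]
  have hvw : star v * w = 0 := by
    rw [← hcw, ← hsv]
    calc star v * a * (c * w) = star v * (a * c) * w := by simp only [mul_assoc]
      _ = 0 := by rw [hac, mul_zero, zero_mul]
  have hwv : star w * v = 0 := by
    have := congrArg star hvw
    rwa [star_mul, star_star, star_zero] at this
  have hbe : b * e = 0 := by
    have := congrArg star heb
    rwa [star_mul, hes, hbs, star_zero] at this
  have hww : star (v + w) * (v + w) = b + e := by
    rw [star_add, add_mul, mul_add, mul_add, hvw, hwv]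
    abel
  have hVw : v + w ∈ V := by
    refine ⟨hadd _ hvN _ hwN, ?_, ?_, ?_⟩
    · rw [hww]
      constructor
      · change (b + e) * (b + e) = b + e
        rw [add_mul, mul_add, mul_add, hbb, hee, hbe, heb]; abel
      · change star (b + e) = b + e
        rw [star_add, hbs, hes]
    · rw [mul_add, hqv, hqw]
    · rw [add_mul, hvp', hwp2]
  have hE : Ext v (v + w) := by
    change (v + w) * b = v
    rw [add_mul, hvb, hwb, add_zero]
  have := hmax (v + w) hVw hE
  have hw0 : w = 0 := by
    have h3 : v + w - v = 0 := by rw [this, sub_self]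
    rwa [add_sub_cancel_left] at h3
  apply hT
  have : T = 0 := by
    rw [← hw3, hc, hw0]; simp
  exact this

end RC
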