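import Pool.Agent.Helper10.RC.Basic

/-!
# MP_b55b7c_an: packet NoAb
-/

open scoped ENNReal NNReal InnerProductSpace ComplexOrder
open Filter Topology

attribute [-instance] CStarMatrix.instAlgebra CStarMatrix.instModule CStarMatrix.instSMul
  CStarMatrix.instMulAction CStarMatrix.instDistribMulAction

noncomputable section
namespace RC
universe u

section
variable {H : Type u} [NormedAddCommGroup H] [InnerProductSpace ℂ H] [CompleteSpace H]

omit [CompleteSpace H] in
theorem tr_sub' (ξ : H) (x y : H →L[ℂ] H) : tr ξ (x - y) = tr ξ x - tr ξ y := by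
  simp [tr]

omit [CompleteSpace H] in
theorem tr_add' (ξ : H) (x y : H →L[ℂ] H) : tr ξ (x + y) = tr ξ x + tr ξ y := by
  simp [tr]

theorem tr_proj_nonneg (ξ : H) (p : H →L[ℂ] H) (hp : IsStarProjection p) : 0 ≤ tr ξ p := by
  have h1 : ⟪ξ, p ξ⟫_ℂ = ⟪p ξ, p ξ⟫_ℂ := by
    have h2 : p ξ = (star p * p) ξ := by
      rw [hp.isSelfAdjoint.star_eq, hp.isIdempotentElem.eq]
    conv_lhs => rw [h2]
    rw [mul_apply_eq_comp, ContinuousLinearMap.star_eq_adjoint,
      ContinuousLinearMap.adjoint_inner_right]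
  unfold tr
  rw [h1]
  exact inner_self_nonneg (𝕜 := ℂ)

theorem noAb_step {S : Set (H →L[ℂ] H)} (hmin : NoMin S) (f : H →L[ℂ] H)
    (hf : f ∈ S.centralizer) (hfp : IsStarProjection f) (hf0 : f ≠ 0) :
    ∃ g : ℕ → (H →L[ℂ] H), g 0 = f ∧ (∀ n, g n ∈ S.centralizer) ∧
      (∀ n, IsStarProjection (g n)) ∧ (∀ n, g n * g (n + 1) = g (n + 1)) ∧
      (∀ n, g (n + 1) ≠ g n) := by
  classical
  let T := {g : H →L[ℂ] H // g ∈ S.centralizer ∧ IsStarProjection g ∧ g ≠ 0}
  have hstep : ∀ g : T, ∃ g' : T, g.1 * g'.1 = g'.1 ∧ g'.1 ≠ g.1 := by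
    intro g
    obtain ⟨g', h1, h2, h3, h4, h5⟩ := hmin g.1 g.2.1 g.2.2.1 g.2.2.2
    exact ⟨⟨g', h1, h2, h4⟩, h3, h5⟩
  choose F hF using hstep
  let G : ℕ → T := fun n => Nat.rec ⟨f, hf, hfp, hf0⟩ (fun _ g => F g) n
  refine ⟨fun n => (G n).1, rfl, fun n => (G n).2.1, fun n => (G n).2.2.1, fun n => ?_,
    fun n => ?_⟩
  · exact (hF (G n)).1
  · exact (hF (G n)).2

end

theorem noAbP (h : CsupP.{u}) : NoAbP.{u} := by
  intro H _ _ _ S ξ hFV κ hκ hz hmin f hf hfp hf0
  by_contra hcon
  push Not at hcon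
  obtain ⟨g, hg0, hgN, hgp, hgs, hgne⟩ := noAb_step hmin f hf hfp hf0
  have hsub : ∀ x ∈ S.centralizer, ∀ y ∈ S.centralizer, x - y ∈ S.centralizer := by
    intro x hx y hy
    rw [Set.mem_centralizer_iff] at *
    intro m hm
    rw [mul_sub, sub_mul, hx m hm, hy m hm]
  have hgs' : ∀ n, g (n + 1) * g n = g (n + 1) := by
    intro n
    have := congrArg star (hgs n)
    rwa [star_mul, (hgp n).isSelfAdjoint.star_eq, (hgp (n + 1)).isSelfAdjoint.star_eq] at this
  -- monotone
  have hgm : ∀ n k, g n * g (n + k) = g (n + k) := by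
    intro n k
    induction k with
    | zero => exact (hgp n).isIdempotentElem.eq
    | succ k ih =>
      have : g n * g (n + k + 1) = g n * (g (n + k) * g (n + k + 1)) := by rw [hgs (n + k)]
      rw [← add_assoc, this, ← mul_assoc, ih, hgs (n + k)]
  have hgm1 : ∀ n m, n ≤ m → g n * g m = g m := by
    intro n m hnm
    obtain ⟨k, rfl⟩ := Nat.exists_eq_add_of_le hnm
    exact hgm n k
  have hgm2 : ∀ n m, n ≤ m → g m * g n = g m := by
    intro n m hnm
    have := congrArg star (hgm1 n m hnm)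
    rwa [star_mul, (hgp n).isSelfAdjoint.star_eq, (hgp m).isSelfAdjoint.star_eq] at this
  set d : ℕ → (H →L[ℂ] H) := fun n => g n - g (n + 1) with hd
  have hdN : ∀ n, d n ∈ S.centralizer := fun n => hsub _ (hgN n) _ (hgN (n + 1))
  have hdsa : ∀ n, star (d n) = d n := by
    intro n
    rw [hd]
    simp only [star_sub]
    rw [(hgp n).isSelfAdjoint.star_eq, (hgp (n + 1)).isSelfAdjoint.star_eq]
  have hdd : ∀ n, d n * d n = d n := by
    intro n
    simp only [hd, sub_mul, mul_sub]
    rw [(hgp n).isIdempotentElem.eq, (hgp (n + 1)).isIdempotentElem.eq, hgs n, hgs' n]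
    abel
  have hdp : ∀ n, IsStarProjection (d n) := fun n => ⟨hdd n, hdsa n⟩
  have hd0 : ∀ n, d n ≠ 0 := by
    intro n h0
    exact hgne n (sub_eq_zero.1 h0).symm
  have hdlt : ∀ i l, i < l → d i * d l = 0 := by
    intro i l hil
    simp only [hd, sub_mul, mul_sub]
    rw [hgm1 i l hil.le, hgm1 i (l + 1) (by omega), hgm1 (i + 1) l (by omega),
      hgm1 (i + 1) (l + 1) (by omega)]
    abel
  have hdne : ∀ i l, i ≠ l → d i * d l = 0 := by
    intro i l hil
    rcases lt_or_gt_of_ne hil with h1 | h1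
    · exact hdlt i l h1
    · have := congrArg star (hdlt l i h1)
      rwa [star_mul, hdsa, hdsa, star_zero] at this
  have hfd : ∀ n, f * d n = d n := by
    intro n
    simp only [hd, mul_sub]
    rw [← hg0, hgm1 0 n (by omega), hgm1 0 (n + 1) (by omega)]
  have hdf : ∀ n, d n * f = d n := by
    intro n
    simp only [hd, sub_mul]
    rw [← hg0, hgm2 0 n (by omega), hgm2 0 (n + 1) (by omega)]
  -- d i x d l = 0
  have hkey : ∀ i l, i ≠ l → ∀ x ∈ S.centralizer, d i * x * d l = 0 := by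
    intro i l hil x hx
    have h1 := hcon x hx (d l) (hdN l)
    -- f x f d_l f = f d_l f x f
    have h2 : f * x * f * d l * f = f * x * d l := by
      rw [mul_assoc (f * x * f) (d l) f, hdf, mul_assoc (f * x) f (d l), hfd]
    have h3 : f * d l * f * x * f = d l * x * f := by
      rw [hfd, hdf]
    rw [h2, h3] at h1
    calc d i * x * d l = d i * f * x * d l := by rw [hdf]
      _ = d i * (f * x * d l) := by simp only [mul_assoc]
      _ = d i * (d l * x * f) := by rw [h1]
      _ = (d i * d l) * (x * f) := by simp only [mul_assoc]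
      _ = 0 := by rw [hdne i l hil, zero_mul]
  have hstar : ∀ x ∈ S, star x ∈ S := hFV.star
  have hz' := fun n => h H S hstar (d n) (hdN n) (hdp n)
  choose z hzCP hzd hzq using hz'
  have hzsa : ∀ n, star (z n) = z n := fun n => (hzCP n).2.1.isSelfAdjoint.star_eq
  have hz0 : ∀ n, z n ≠ 0 := by
    intro n h0
    have := hzd n
    rw [h0, zero_mul] at this
    exact hd0 n this.symm
  have hdz : ∀ i l, i ≠ l → d l * z i = 0 := by
    intro i l hil
    exact hzq i (d l) (hdN l) (fun x hx => hkey l i hil.symm x hx)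
  have hzd0 : ∀ i l, i ≠ l → z i * d l = 0 := by
    intro i l hil
    have := congrArg star (hdz i l hil)
    rwa [star_mul, hdsa, hzsa, star_zero] at this
  have hzz : ∀ i l, i ≠ l → z i * z l = 0 := by
    intro i l hil
    refine hzq l (z i) (hzCP i).1 (fun x hx => ?_)
    rw [(hzCP i).2.2 x hx, mul_assoc, hzd0 i l hil, mul_zero]
  -- the sums
  have hsum : ∀ K : ℕ, ∃ P : H →L[ℂ] H, IsStarProjection P ∧ (∀ j, K ≤ j → P * z j = 0) ∧
      K * κ ≤ tr ξ P := by
    intro K
    induction K with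
    | zero =>
      refine ⟨0, IsStarProjection.zero _, fun j _ => zero_mul _, ?_⟩
      simp [tr]
    | succ K ih =>
      obtain ⟨P, hP, hPz, hPt⟩ := ih
      have hPz' : z K * P = 0 := by
        have := congrArg star (hPz K le_rfl)
        rwa [star_mul, hzsa, hP.isSelfAdjoint.star_eq, star_zero] at this
      refine ⟨P + z K, ⟨?_, ?_⟩, fun j hj => ?_, ?_⟩
      · change (P + z K) * (P + z K) = P + z K
        rw [add_mul, mul_add, mul_add, hPz K le_rfl, hPz', hP.isIdempotentElem.eq,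
          (hzCP K).2.1.isIdempotentElem.eq, add_zero, zero_add]
      · change star (P + z K) = P + z K
        rw [star_add, hP.isSelfAdjoint.star_eq, hzsa]
      · rw [add_mul, hPz j (by omega), hzz K j (by omega), add_zero]
      · rw [tr_add']
        have := hz (z K) (hzCP K) (hz0 K)
        push_cast
        linarith
  obtain ⟨K, hK⟩ := exists_nat_gt (1 / κ)
  obtain ⟨P, hP, -, hPt⟩ := hsum K
  have h1 : 0 ≤ tr ξ (1 - P) := tr_proj_nonneg ξ _ hP.one_sub
  have h2 : tr ξ (1 : H →L[ℂ] H) = 1 := by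
    unfold tr
    rw [one_apply_eq_self, inner_self_eq_norm_sq_to_K, hFV.norm]
    simp
  rw [tr_sub', h2] at h1
  have h3 : 1 < K * κ := by
    rwa [div_lt_iff₀ hκ] at hK
  linarith

end RC
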